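import Pool.Agent.H720R2.NR.SCH2
import Pool.Agent.H720R2.NR.TINT

set_option autoImplicit false

open scoped ComplexConjugate
open MeasureTheory

namespace Pool.Agent.H720R2.NR

theorem aw2_meas (k P : ℝ) : Measurable (aw2 k P) := by
  unfold aw2
  refine Measurable.ite (measurableSet_le (by fun_prop) measurable_const) measurable_const ?_
  unfold Rq
  fun_prop

theorem int2_pos (F : ℝ → ℂ) (l P k M : ℝ) (hF : Continuous F) (hM : ∀ x, ‖F x‖ ≤ M)
    (hl : 1 < l) (hP : 0 ≤ P) (hc : Cd l P k) :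
    ‖∫ x : ℝ, F (l * x) * conj (F x) / ((Rq P x : ℝ) : ℂ)‖ ≤
      Real.sqrt l * ∫ x : ℝ, ‖F x‖ ^ 2 / Rq P x := by
  have hP4 := sch2_P_lt l P k hl hc
  have hq : ∀ x, 0 < Rq P x := fun x => sch_Rq_pos P x hP4
  have hl0 : 0 < l := by linarith
  have hM0 : 0 ≤ M := (norm_nonneg _).trans (hM 0)
  set r : ℝ := Real.sqrt l with hr
  have hr0 : 0 < r := Real.sqrt_pos.2 hl0
  have hrr : r * r = l := Real.mul_self_sqrt hl0.le
  have hw := fun x => sch2 l P k x hl hP hc
  have hF2 : ∀ x, ‖F x‖ ^ 2 ≤ M ^ 2 := fun x => pow_le_pow_left₀ (norm_nonneg _) (hM x) 2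
  have hinv := int_inv P hP4
  have hRm : Measurable (Rq P) := by unfold Rq; fun_prop
  have hFm : Measurable fun x : ℝ => ‖F x‖ := hF.norm.measurable
  have hwm := aw2_meas k P
  have hw2 : ∀ x, 1 / aw2 k P x ≤ 2 := by
    intro x
    obtain ⟨h1, _, h3⟩ := hw x
    have h4 : 0 ≤ aw2 k P (x / l) * (Rq P x / (l ^ 2 * Rq P (x / l))) := by
      have := (hw (x / l)).1
      have := hq x
      have := hq (x / l)
      positivity
    linarith
  -- the functions
  set G1 : ℝ → ℝ := fun x => aw2 k P x / r * ‖F (l * x)‖ ^ 2 / Rq P x with hG1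
  set G2 : ℝ → ℝ := fun x => r / aw2 k P x * ‖F x‖ ^ 2 / Rq P x with hG2
  set H : ℝ → ℝ := fun y => aw2 k P (y / l) / r * ‖F y‖ ^ 2 / Rq P (y / l) with hH
  have hG1i : Integrable G1 := by
    refine Integrable.mono' (hinv.const_mul (1 / r * M ^ 2)) ?_ (Filter.Eventually.of_forall fun x => ?_)
    · apply Measurable.aestronglyMeasurable
      have : Measurable fun x : ℝ => ‖F (l * x)‖ := by fun_prop
      exact (((hwm.div_const r).mul (this.pow_const 2)).div hRm)
    · have h1 := hw x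
      have h2 := hq x
      have h3 := h1.1
      rw [Real.norm_eq_abs, abs_of_nonneg (by positivity)]
      have h4 : aw2 k P x / r * ‖F (l * x)‖ ^ 2 ≤ 1 / r * M ^ 2 :=
        mul_le_mul (div_le_div_of_nonneg_right h1.2.1 hr0.le) (hF2 _) (by positivity) (by positivity)
      calc aw2 k P x / r * ‖F (l * x)‖ ^ 2 / Rq P x ≤ (1 / r * M ^ 2) / Rq P x :=
            div_le_div_of_nonneg_right h4 h2.le
        _ = 1 / r * M ^ 2 * (1 / Rq P x) := by ring
  have hG2i : Integrable G2 := by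
    refine Integrable.mono' (hinv.const_mul (r * 2 * M ^ 2)) ?_ (Filter.Eventually.of_forall fun x => ?_)
    · apply Measurable.aestronglyMeasurable
      exact (((measurable_const.div hwm).mul (hFm.pow_const 2)).div hRm)
    · have h1 := hw x
      have h2 := hq x
      have h3 := h1.1
      rw [Real.norm_eq_abs, abs_of_nonneg (by positivity)]
      have h5 : r / aw2 k P x = r * (1 / aw2 k P x) := by ring
      have h4 : r / aw2 k P x * ‖F x‖ ^ 2 ≤ r * 2 * M ^ 2 := by
        rw [h5]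
        exact mul_le_mul (mul_le_mul_of_nonneg_left (hw2 x) hr0.le) (hF2 _) (by positivity)
          (by positivity)
      calc r / aw2 k P x * ‖F x‖ ^ 2 / Rq P x ≤ (r * 2 * M ^ 2) / Rq P x :=
            div_le_div_of_nonneg_right h4 h2.le
        _ = r * 2 * M ^ 2 * (1 / Rq P x) := by ring
  have hG1H : G1 = fun x => H (l * x) := by
    funext x
    simp only [hG1, hH]
    rw [mul_div_cancel_left₀ x hl0.ne']
  have hHi : Integrable H := by
    have := hG1i
    rw [hG1H] at this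
    exact (integrable_comp_mul_left_iff H hl0.ne').1 this
  have hG1int : ∫ x, G1 x = l⁻¹ * ∫ y, H y := by
    rw [hG1H, Measure.integral_comp_mul_left H l, abs_of_pos (inv_pos.2 hl0), smul_eq_mul]
  have hFi : Integrable fun x : ℝ => ‖F x‖ ^ 2 / Rq P x := by
    refine Integrable.mono' (hinv.const_mul (M ^ 2)) ?_ (Filter.Eventually.of_forall fun x => ?_)
    · apply Measurable.aestronglyMeasurable
      exact (hFm.pow_const 2).div hRm
    · have h2 := hq x
      rw [Real.norm_eq_abs, abs_of_nonneg (by positivity), div_eq_mul_one_div]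
      exact mul_le_mul_of_nonneg_right (hF2 x) (by positivity)
  -- pointwise bound
  have hpt : ∀ x, ‖F (l * x) * conj (F x) / ((Rq P x : ℝ) : ℂ)‖ ≤ (G1 x + G2 x) / 2 := by
    intro x
    have h2 := hq x
    have h3 := (hw x).1
    rw [norm_div, norm_mul, RCLike.norm_conj, Complex.norm_real, Real.norm_eq_abs, abs_of_pos h2]
    simp only [hG1, hG2]
    rw [← add_div, div_div, div_le_div_iff₀ h2 (by positivity)]
    have h4 : ‖F (l * x)‖ * ‖F x‖ * 2 ≤
        aw2 k P x / r * ‖F (l * x)‖ ^ 2 + r / aw2 k P x * ‖F x‖ ^ 2 := by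
      have h5 : aw2 k P x / r * ‖F (l * x)‖ ^ 2 + r / aw2 k P x * ‖F x‖ ^ 2 -
          ‖F (l * x)‖ * ‖F x‖ * 2 =
          (aw2 k P x * ‖F (l * x)‖ - r * ‖F x‖) ^ 2 / (aw2 k P x * r) := by
        field_simp
        ring
      have h6 : 0 ≤ (aw2 k P x * ‖F (l * x)‖ - r * ‖F x‖) ^ 2 / (aw2 k P x * r) := by positivity
      linarith
    nlinarith [mul_le_mul_of_nonneg_right h4 h2.le]
  have hsum : ∀ y, l⁻¹ * H y + G2 y ≤ 2 * (r * (‖F y‖ ^ 2 / Rq P y)) := by
    intro y
    have h2 := hq y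
    have h3 := (hw y).1
    have h4 := (hw (y / l)).1
    have h5 := hq (y / l)
    have h6 : l⁻¹ * H y + G2 y = r * (‖F y‖ ^ 2 / Rq P y) *
        (1 / aw2 k P y + aw2 k P (y / l) * (Rq P y / (l ^ 2 * Rq P (y / l)))) := by
      simp only [hH, hG2]
      rw [← hrr]
      field_simp
      ring
    rw [h6]
    calc r * (‖F y‖ ^ 2 / Rq P y) *
        (1 / aw2 k P y + aw2 k P (y / l) * (Rq P y / (l ^ 2 * Rq P (y / l))))
        ≤ r * (‖F y‖ ^ 2 / Rq P y) * 2 := mul_le_mul_of_nonneg_left (hw y).2.2 (by positivity)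
      _ = 2 * (r * (‖F y‖ ^ 2 / Rq P y)) := by ring
  calc ‖∫ x : ℝ, F (l * x) * conj (F x) / ((Rq P x : ℝ) : ℂ)‖
      ≤ ∫ x, (G1 x + G2 x) / 2 :=
        norm_integral_le_of_norm_le ((hG1i.add hG2i).div_const 2) (Filter.Eventually.of_forall hpt)
    _ = (∫ y, (l⁻¹ * H y + G2 y)) / 2 := by
        rw [integral_div, integral_add hG1i hG2i, hG1int, integral_add (hHi.const_mul _) hG2i,
          integral_const_mul]
    _ ≤ (∫ y, 2 * (r * (‖F y‖ ^ 2 / Rq P y))) / 2 := by
        apply div_le_div_of_nonneg_right _ (by norm_num)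
        exact integral_mono ((hHi.const_mul _).add hG2i) ((hFi.const_mul r).const_mul 2) hsum
    _ = r * ∫ x : ℝ, ‖F x‖ ^ 2 / Rq P x := by
        rw [integral_const_mul, integral_const_mul]; ring

theorem int2 (F : ℝ → ℂ) (l P k M : ℝ) (hF : Continuous F) (hM : ∀ x, ‖F x‖ ≤ M)
    (hl : 1 < l) (hc : Cd l P k) :
    ‖∫ x : ℝ, F (l * x) * conj (F x) / ((Rq P x : ℝ) : ℂ)‖ ≤
      Real.sqrt l * ∫ x : ℝ, ‖F x‖ ^ 2 / Rq P x := by
  rcases le_total 0 P with hP | hP
  · exact int2_pos F l P k M hF hM hl hP hc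
  · have h1 := int2_pos (fun x => F (-x)) l (-P) k M (by fun_prop) (fun x => hM _) hl
      (neg_nonneg.2 hP) ⟨hc.1, by rw [neg_sq]; exact hc.2⟩
    have hR : ∀ x, Rq (-P) x = Rq P (-x) := by intro x; unfold Rq; ring
    have h2 : ∫ x : ℝ, F (-(l * x)) * conj (F (-x)) / ((Rq (-P) x : ℝ) : ℂ) =
        ∫ x : ℝ, F (l * x) * conj (F x) / ((Rq P x : ℝ) : ℂ) := by
      rw [← integral_neg_eq_self (fun x : ℝ => F (l * x) * conj (F x) / ((Rq P x : ℝ) : ℂ))]
      congr 1
      funext x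
      rw [hR, mul_neg]
    have h3 : ∫ x : ℝ, ‖F (-x)‖ ^ 2 / Rq (-P) x = ∫ x : ℝ, ‖F x‖ ^ 2 / Rq P x := by
      rw [← integral_neg_eq_self (fun x : ℝ => ‖F x‖ ^ 2 / Rq P x)]
      congr 1
      funext x
      rw [hR]

    rw [h2, h3] at h1
    exact h1

end Pool.Agent.H720R2.NR
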