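import Pool.Agent.H720R2.NR.TSCH

set_option autoImplicit false

open scoped ComplexConjugate
open MeasureTheory

namespace Pool.Agent.H720R2.NR

/-- the weight in the Schur test, with a parameter `k` -/
noncomputable def aw2 (k P x : ℝ) : ℝ :=
  if (P + k * P) * x ≤ 1 then 1 else Rq P x / (x * (x + k * P))

/-- the condition -/
def Cd (l P k : ℝ) : Prop :=
  0 < k ∧ P ^ 2 * (l * k ^ 2 + 2 * l * k + 1) ^ 2 ≤ 4 * ((l - 1) * k * (1 + (2 * l - 1) * k))

theorem sch2_P_lt (l P k : ℝ) (hl : 1 < l) (hP : Cd l P k) : P ^ 2 < 4 := by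
  obtain ⟨hk, hP⟩ := hP
  by_contra h
  push Not at h
  have h1 : 4 * (l * k ^ 2 + 2 * l * k + 1) ^ 2 ≤ P ^ 2 * (l * k ^ 2 + 2 * l * k + 1) ^ 2 :=
    mul_le_mul_of_nonneg_right h (by positivity)
  have hl0 : 0 < l := by linarith
  have h2 : (2 * l * k + 1) ^ 2 ≤ (l * k ^ 2 + 2 * l * k + 1) ^ 2 :=
    pow_le_pow_left₀ (by positivity) (by nlinarith [mul_pos hl0 (pow_pos hk 2)]) 2
  have h3 : (l - 1) * k * (1 + (2 * l - 1) * k) < (2 * l * k + 1) ^ 2 := by
    have h4 : (l - 1) * k ≤ 4 * l * k := by nlinarith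
    have h5 : (l - 1) * (2 * l - 1) * k ^ 2 ≤ 4 * l ^ 2 * k ^ 2 := by
      apply mul_le_mul_of_nonneg_right _ (by positivity)
      nlinarith
    nlinarith
  nlinarith

theorem sch2 (l P k x : ℝ) (hl : 1 < l) (hP : 0 ≤ P) (hcd : Cd l P k) :
    0 < aw2 k P x ∧ aw2 k P x ≤ 1 ∧
      1 / aw2 k P x + aw2 k P (x / l) * (Rq P x / (l ^ 2 * Rq P (x / l))) ≤ 2 := by
  have hP4 := sch2_P_lt l P k hl hcd
  obtain ⟨hk, hc⟩ := hcd
  have hl0 : 0 < l := by linarith
  have hq := sch_Rq_pos P x hP4
  have hq' := sch_Rq_pos P (x / l) hP4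
  have hPl : 0 ≤ k * P := by positivity
  by_cases h : (P + k * P) * x ≤ 1
  · have ha : aw2 k P x = 1 := by unfold aw2; rw [if_pos h]
    have h2 : (P + k * P) * (x / l) ≤ 1 := by
      rcases le_total x 0 with hx | hx
      · have : (P + k * P) * (x / l) ≤ 0 :=
          mul_nonpos_of_nonneg_of_nonpos (by positivity) (div_nonpos_of_nonpos_of_nonneg hx hl0.le)
        linarith
      · have h3 : x / l ≤ x := by
          rw [div_le_iff₀ hl0]; nlinarith
        have : (P + k * P) * (x / l) ≤ (P + k * P) * x :=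
          mul_le_mul_of_nonneg_left h3 (by positivity)
        linarith
    have ha' : aw2 k P (x / l) = 1 := by unfold aw2; rw [if_pos h2]
    rw [ha, ha']
    refine ⟨one_pos, le_rfl, ?_⟩
    have h3 : Rq P x / (l ^ 2 * Rq P (x / l)) ≤ 1 := by
      rw [div_le_one (by positivity)]
      unfold Rq
      have h4 : l ^ 2 * ((x / l) ^ 2 - P * (x / l) + 1) = x ^ 2 - P * l * x + l ^ 2 := by
        field_simp
      rw [h4]
      have h5 : P * x ≤ 1 := by
        rcases le_total x 0 with hx | hx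
        · have := mul_nonpos_of_nonneg_of_nonpos hP hx
          linarith
        · have : 0 ≤ k * P * x := by positivity
          nlinarith
      nlinarith [mul_le_mul_of_nonneg_left h5 (by linarith : (0:ℝ) ≤ l - 1)]
    linarith
  · push Not at h
    have hPpos : 0 < P := by
      rcases hP.lt_or_eq with h1 | h1
      · exact h1
      · rw [← h1] at h; simp at h; linarith
    have hx : 0 < x := by
      by_contra h1
      push Not at h1
      have : (P + k * P) * x ≤ 0 := mul_nonpos_of_nonneg_of_nonpos (by positivity) h1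
      linarith
    obtain ⟨g, hg⟩ : ∃ g : ℝ, g = k * P := ⟨_, rfl⟩
    have hg0 : 0 < g := by rw [hg]; positivity
    rw [← hg] at h
    have ha : aw2 k P x = Rq P x / (x * (x + g)) := by
      unfold aw2; rw [← hg, if_neg (by push Not; exact h)]
    have hden : 0 < x * (x + g) := by positivity
    have hapos : 0 < aw2 k P x := by rw [ha]; positivity
    have hle1 : aw2 k P x ≤ 1 := by
      rw [ha, div_le_one hden]
      unfold Rq
      nlinarith
    refine ⟨hapos, hle1, ?_⟩
    have h2 : aw2 k P (x / l) ≤ Rq P (x / l) / ((x / l) * (x / l + g)) := by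
      unfold aw2
      rw [← hg]
      by_cases h3 : (P + g) * (x / l) ≤ 1
      · rw [if_pos h3]
        rw [le_div_iff₀ (by positivity)]
        unfold Rq
        nlinarith
      · rw [if_neg h3]
    have h3 : aw2 k P (x / l) * (Rq P x / (l ^ 2 * Rq P (x / l))) ≤
        Rq P x / (x * (x + l * g)) := by
      calc aw2 k P (x / l) * (Rq P x / (l ^ 2 * Rq P (x / l)))
          ≤ Rq P (x / l) / ((x / l) * (x / l + g)) * (Rq P x / (l ^ 2 * Rq P (x / l))) :=
            mul_le_mul_of_nonneg_right h2 (by positivity)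
        _ = Rq P x / (x * (x + l * g)) := by field_simp
    have h4 : 1 / aw2 k P x = x * (x + g) / Rq P x := by rw [ha, one_div_div]
    rw [h4]
    refine (add_le_add_right h3 _).trans ?_
    have hd2 : 0 < x * (x + l * g) := by positivity
    rw [div_add_div _ _ hq.ne' hd2.ne', div_le_iff₀ (by positivity)]
    have hkey : 0 ≤ (l - 1) * g * x ^ 3 - (l * g ^ 2 + 2 * l * g * P + P ^ 2) * x ^ 2 +
        (2 * P + 2 * l * g) * x - 1 := by
      have h5 : 1 ≤ (P + g) * x := h.le
      have h7 : 0 < l - 1 := by linarith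
      have h6 : 0 ≤ (l - 1) * k * x ^ 2 - P * (l * k ^ 2 + 2 * l * k + 1) * x +
          (1 + (2 * l - 1) * k) := by
        have h8 : 0 ≤ 4 * ((l - 1) * k) * ((l - 1) * k * x ^ 2 -
            P * (l * k ^ 2 + 2 * l * k + 1) * x + (1 + (2 * l - 1) * k)) := by
          nlinarith [sq_nonneg (2 * ((l - 1) * k) * x - P * (l * k ^ 2 + 2 * l * k + 1))]
        exact nonneg_of_mul_nonneg_right h8 (by positivity)
      have h9 : 0 ≤ P * x * ((l - 1) * k * x ^ 2 - P * (l * k ^ 2 + 2 * l * k + 1) * x +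
          (1 + (2 * l - 1) * k)) := mul_nonneg (by positivity) h6
      have h10 : (l - 1) * g * x ^ 3 - (l * g ^ 2 + 2 * l * g * P + P ^ 2) * x ^ 2 +
          (2 * P + 2 * l * g) * x - 1 = P * x * ((l - 1) * k * x ^ 2 -
          P * (l * k ^ 2 + 2 * l * k + 1) * x + (1 + (2 * l - 1) * k)) + ((P + g) * x - 1) := by
        rw [hg]; ring
      rw [h10]
      linarith
    have h11 : 2 * (Rq P x * (x * (x + l * g))) -
        (x * (x + g) * (x * (x + l * g)) + Rq P x * Rq P x) =
        (l - 1) * g * x ^ 3 - (l * g ^ 2 + 2 * l * g * P + P ^ 2) * x ^ 2 +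
        (2 * P + 2 * l * g) * x - 1 := by
      unfold Rq; ring
    linarith

end Pool.Agent.H720R2.NR
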