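import Pool.Agent.Helper368.F96.Eig

/-!
# Numerical radius of hyperbolic composition operators with nearly antipodal fixed points: statements
-/

set_option autoImplicit false

open scoped ComplexConjugate
open MeasureTheory

namespace Pool.Agent.H720R2.NR

open F96

/-- boundary values of the kernels in half plane coordinates -/
noncomputable def K (b s x : ℂ) : ℂ :=
  (conj s - b) * (x - conj b) / ((b - conj b) * (conj s - x))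

/-- Cauchy integral over the line -/
def S_CAU : Prop := ∀ u w : ℂ, 0 < u.im → 0 < w.im →
  Integrable (fun x : ℝ => 1 / (((x : ℂ) - u) * ((x : ℂ) - conj w))) ∧
  ∫ x : ℝ, 1 / (((x : ℂ) - u) * ((x : ℂ) - conj w)) = 2 * Real.pi * Complex.I / (u - conj w)

/-- inner products of kernels as integrals -/
def S_KER : Prop := ∀ (b s u : ℂ) (l : ℝ), 0 < b.im → 0 < s.im → 0 < u.im → 0 < l →
  Integrable (fun x : ℝ => K b s ((l * x : ℝ) : ℂ) * conj (K b u x) / ((‖(x : ℂ) - b‖ ^ 2 : ℝ) : ℂ)) ∧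
  ∫ x : ℝ, K b s ((l * x : ℝ) : ℂ) * conj (K b u x) / ((‖(x : ℂ) - b‖ ^ 2 : ℝ) : ℂ) =
    ((Real.pi / b.im : ℝ) : ℂ) * K b s (l * u)

/-- half plane coordinates of a hyperbolic automorphism -/
def S_GEO : Prop := ∀ (c p ω β : ℂ) (α : ℝ), ‖c‖ = 1 → ‖p‖ < 1 → ‖ω‖ = 1 → ‖β‖ = 1 → ω ≠ β →
  0 < α → α < 1 → c * ((ω - p) / (1 - conj p * ω)) = ω → c * ((β - p) / (1 - conj p * β)) = β →
  HasDerivAt (fun z : ℂ => c * ((z - p) / (1 - conj p * z))) (α : ℂ) ω →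
  ∃ η b : ℂ, ‖η‖ = 1 ∧ 0 < b.im ∧ ‖b‖ = 1 ∧ b.re ^ 2 = 1 - ‖ω - β‖ ^ 2 / 4 ∧
    ∀ s : ℂ, 0 < s.im → c * ((zt η b s - p) / (1 - conj p * zt η b s)) =
      zt η b (((α⁻¹ : ℝ) : ℂ) * s)

/-- the quadratic polynomial `|x - b|^2` -/
def Rq (P x : ℝ) : ℝ := x ^ 2 - P * x + 1

/-- the weight in the Schur test -/
noncomputable def aw (l P x : ℝ) : ℝ :=
  if (P + P / l) * x ≤ 1 then 1 else Rq P x / (x * (x + P / l))

/-- the pointwise inequality of the Schur test -/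
def S_SCH : Prop := ∀ (l P x : ℝ), 1 < l → 0 ≤ P →
  P ^ 2 * (3 * l + 1) ^ 2 ≤ 4 * ((3 * l - 1) * (l - 1)) →
  0 < aw l P x ∧ aw l P x ≤ 1 ∧
    1 / aw l P x + aw l P (x / l) * (Rq P x / (l ^ 2 * Rq P (x / l))) ≤ 2

/-- the integral inequality -/
def S_INT : Prop := ∀ (F : ℝ → ℂ) (l P M : ℝ), Continuous F → (∀ x, ‖F x‖ ≤ M) → 1 < l →
  P ^ 2 * (3 * l + 1) ^ 2 ≤ 4 * ((3 * l - 1) * (l - 1)) →
  ‖∫ x : ℝ, F (l * x) * conj (F x) / ((Rq P x : ℝ) : ℂ)‖ ≤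
    Real.sqrt l * ∫ x : ℝ, ‖F x‖ ^ 2 / Rq P x

/-- the upper bound -/
def S_UB : Prop := ∀ (η b : ℂ) (l : ℝ) (φ : ℂ → ℂ) (C : H2 →L[ℂ] H2), ‖η‖ = 1 → 0 < b.im →
  ‖b‖ = 1 → 1 < l → (4 * b.re ^ 2) * (3 * l + 1) ^ 2 ≤ 4 * ((3 * l - 1) * (l - 1)) →
  (∀ s : ℂ, 0 < s.im → φ (zt η b s) = zt η b (l * s)) →
  (∀ f : H2, ∀ z : ℂ, ‖z‖ < 1 → ev (C f) z = ev f (φ z)) →
  ∀ x : H2, ‖(inner ℂ x (C x) : ℂ)‖ ≤ Real.sqrt l * ‖x‖ ^ 2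

end Pool.Agent.H720R2.NR
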