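import Mathlib
import Pool.Agent.H720R2.NR.Stubs

set_option autoImplicit false

open Complex Filter Topology MeasureTheory
open scoped ComplexConjugate

namespace Pool.Agent.H720R2.NR

namespace CAU

theorem im_ne (x : ℝ) (u : ℂ) (hu : u.im ≠ 0) : ((x : ℂ) - u).im ≠ 0 := by
  simpa using hu

theorem ne0 (x : ℝ) (u : ℂ) (hu : u.im ≠ 0) : (x : ℂ) - u ≠ 0 := by
  intro h
  exact im_ne x u hu (by rw [h]; simp)

theorem one_sub_tendsto (u : ℂ) : Tendsto (fun x : ℝ => 1 - u / (x : ℂ)) atTop (𝓝 1) := by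
  have h1 : Tendsto (fun x : ℝ => ((x : ℂ))⁻¹) atTop (𝓝 0) := by
    have h2 : Tendsto (fun x : ℝ => ((x⁻¹ : ℝ) : ℂ)) atTop (𝓝 ((0 : ℝ) : ℂ)) :=
      (continuous_ofReal.tendsto 0).comp tendsto_inv_atTop_zero
    simpa using h2
  have h3 := (h1.const_mul u).const_sub 1
  simpa [div_eq_mul_inv] using h3

theorem log_tendsto (u : ℂ) :
    Tendsto (fun x : ℝ => Complex.log (1 - u / (x : ℂ))) atTop (𝓝 0) := by
  have h1 : Tendsto (fun x : ℝ => Complex.log (1 - u / (x : ℂ))) atTop (𝓝 (Complex.log 1)) :=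
    (continuousAt_clog (x := (1 : ℂ)) (by simp [slitPlane])).tendsto.comp (one_sub_tendsto u)
  rwa [Complex.log_one] at h1

theorem top (u : ℂ) (hu : u.im ≠ 0) :
    Tendsto (fun x : ℝ => Complex.log ((x : ℂ) - u) - (Real.log x : ℂ)) atTop (𝓝 0) := by
  refine (log_tendsto u).congr' ?_
  filter_upwards [eventually_gt_atTop (0 : ℝ)] with x hx
  have hx' : (x : ℂ) ≠ 0 := by exact_mod_cast hx.ne'
  have h1 : (x : ℂ) - u = (x : ℂ) * (1 - u / x) := by field_simp
  have h2 : (1 - u / (x : ℂ)) ≠ 0 := by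
    intro h
    rw [h, mul_zero] at h1
    exact ne0 x u hu h1
  rw [h1, Complex.log_ofReal_mul hx h2]
  ring

theorem bot_pos (u : ℂ) (hu : 0 < u.im) :
    Tendsto (fun x : ℝ => Complex.log (((-x : ℝ) : ℂ) - u) - (Real.log x : ℂ)) atTop
      (𝓝 (-(Real.pi * I))) := by
  have h0 := (log_tendsto (-u)).sub_const ((Real.pi : ℂ) * I)
  rw [zero_sub] at h0
  refine h0.congr' ?_
  filter_upwards [eventually_gt_atTop (0 : ℝ)] with x hx
  have hx' : (x : ℂ) ≠ 0 := by exact_mod_cast hx.ne'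
  have h1 : (((-x : ℝ) : ℂ) - u) = (x : ℂ) * (-(1 - (-u) / x)) := by
    push_cast; field_simp; ring
  have him : 0 < (1 - (-u) / (x : ℂ)).im := by
    have : (1 - (-u) / (x : ℂ)) = 1 + u / x := by ring
    rw [this]
    have h3 : (u / (x : ℂ)).im = u.im / x := by
      rw [Complex.div_ofReal_im]
    simp only [add_im, one_im, zero_add, h3]
    positivity
  have h2 : (-(1 - (-u) / (x : ℂ))) ≠ 0 := by
    intro h
    rw [neg_eq_zero] at h
    rw [h] at him
    simp at him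
  rw [h1, Complex.log_ofReal_mul hx h2]
  have h4 : Complex.log (-(1 - (-u) / (x : ℂ))) = Complex.log (1 - (-u) / (x : ℂ)) -
      Real.pi * I := by
    rw [Complex.log, Complex.log, norm_neg, Complex.arg_neg_eq_arg_sub_pi_of_im_pos him]
    push_cast
    ring
  rw [h4]
  ring

theorem bot_neg (u : ℂ) (hu : u.im < 0) :
    Tendsto (fun x : ℝ => Complex.log (((-x : ℝ) : ℂ) - u) - (Real.log x : ℂ)) atTop
      (𝓝 (Real.pi * I)) := by
  have h0 := (log_tendsto (-u)).add_const ((Real.pi : ℂ) * I)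
  rw [zero_add] at h0
  refine h0.congr' ?_
  filter_upwards [eventually_gt_atTop (0 : ℝ)] with x hx
  have hx' : (x : ℂ) ≠ 0 := by exact_mod_cast hx.ne'
  have h1 : (((-x : ℝ) : ℂ) - u) = (x : ℂ) * (-(1 - (-u) / x)) := by
    push_cast; field_simp; ring
  have him : (1 - (-u) / (x : ℂ)).im < 0 := by
    have : (1 - (-u) / (x : ℂ)) = 1 + u / x := by ring
    rw [this]
    have h3 : (u / (x : ℂ)).im = u.im / x := by
      rw [Complex.div_ofReal_im]
    simp only [add_im, one_im, zero_add, h3]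
    exact div_neg_of_neg_of_pos hu hx
  have h2 : (-(1 - (-u) / (x : ℂ))) ≠ 0 := by
    intro h
    rw [neg_eq_zero] at h
    rw [h] at him
    simp at him
  rw [h1, Complex.log_ofReal_mul hx h2]
  have h4 : Complex.log (-(1 - (-u) / (x : ℂ))) = Complex.log (1 - (-u) / (x : ℂ)) +
      Real.pi * I := by
    rw [Complex.log, Complex.log, norm_neg, Complex.arg_neg_eq_arg_add_pi_of_im_neg him]
    push_cast
    ring
  rw [h4]
  ring

theorem int_sq (u : ℂ) (hu : u.im ≠ 0) : Integrable (fun x : ℝ => (‖(x : ℂ) - u‖ ^ 2)⁻¹) := by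
  have h1 := ((integrable_inv_one_add_sq.comp_div hu).comp_sub_right u.re).const_mul
    ((u.im ^ 2)⁻¹)
  refine h1.congr (Eventually.of_forall fun x => ?_)
  have h2 : ‖(x : ℂ) - u‖ ^ 2 = (x - u.re) ^ 2 + u.im ^ 2 := by
    rw [← Complex.normSq_eq_norm_sq, Complex.normSq_apply]
    simp
    ring
  show (u.im ^ 2)⁻¹ * (1 + ((x - u.re) / u.im) ^ 2)⁻¹ = (‖(x : ℂ) - u‖ ^ 2)⁻¹
  rw [h2, ← mul_inv]
  congr 1
  field_simp
  ring

theorem integ (u v : ℂ) (hu : u.im ≠ 0) (hv : v.im ≠ 0) :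
    Integrable (fun x : ℝ => 1 / (((x : ℂ) - u) * ((x : ℂ) - v))) := by
  have h1 := (int_sq u hu).add (int_sq v hv)
  refine h1.mono' ?_ (Eventually.of_forall fun x => ?_)
  · refine Continuous.aestronglyMeasurable ?_
    refine Continuous.div continuous_const (by fun_prop) fun x => ?_
    exact mul_ne_zero (ne0 x u hu) (ne0 x v hv)
  · have ha : 0 < ‖(x : ℂ) - u‖ := norm_pos_iff.2 (ne0 x u hu)
    have hb : 0 < ‖(x : ℂ) - v‖ := norm_pos_iff.2 (ne0 x v hv)
    rw [norm_div, norm_one, norm_mul, one_div, mul_inv]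
    show ‖(x : ℂ) - u‖⁻¹ * ‖(x : ℂ) - v‖⁻¹ ≤ (‖(x : ℂ) - u‖ ^ 2)⁻¹ + (‖(x : ℂ) - v‖ ^ 2)⁻¹
    rw [← inv_pow, ← inv_pow]
    nlinarith [sq_nonneg (‖(x : ℂ) - u‖⁻¹ - ‖(x : ℂ) - v‖⁻¹), sq_nonneg (‖(x : ℂ) - u‖⁻¹),
      sq_nonneg (‖(x : ℂ) - v‖⁻¹)]

theorem value (u v : ℂ) (hu : 0 < u.im) (hv : v.im < 0) :
    ∫ x : ℝ, 1 / (((x : ℂ) - u) * ((x : ℂ) - v)) = 2 * Real.pi * I / (u - v) := by
  have huv : u - v ≠ 0 := by
    intro h
    have := congrArg Complex.im h
    simp at this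
    linarith
  have hd : ∀ (z : ℂ), z.im ≠ 0 → ∀ x : ℝ,
      HasDerivAt (fun x : ℝ => Complex.log ((x : ℂ) - z)) (1 / ((x : ℂ) - z)) x := by
    intro z hz x
    have h1 : HasDerivAt (fun x : ℝ => (x : ℂ) - z) 1 x := (Complex.ofRealCLM.hasDerivAt).sub_const z
    exact h1.clog_real (Or.inr (im_ne x z hz))
  have hderiv : ∀ x : ℝ, HasDerivAt (fun x : ℝ => (u - v)⁻¹ * (Complex.log ((x : ℂ) - u) -
      Complex.log ((x : ℂ) - v))) (1 / (((x : ℂ) - u) * ((x : ℂ) - v))) x := by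
    intro x
    have h1 := ((hd u hu.ne' x).sub (hd v hv.ne x)).const_mul (u - v)⁻¹
    have ha := ne0 x u hu.ne'
    have hb := ne0 x v hv.ne
    have h2 : 1 / (((x : ℂ) - u) * ((x : ℂ) - v)) =
        (u - v)⁻¹ * (1 / ((x : ℂ) - u) - 1 / ((x : ℂ) - v)) := by
      field_simp
      ring
    rw [h2]
    exact h1
  have htop : Tendsto (fun x : ℝ => (u - v)⁻¹ * (Complex.log ((x : ℂ) - u) -
      Complex.log ((x : ℂ) - v))) atTop (𝓝 0) := by
    have h1 := ((top u hu.ne').sub (top v hv.ne)).const_mul (u - v)⁻¹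
    simp only [sub_zero, mul_zero] at h1
    refine h1.congr fun x => ?_
    ring
  have hbot : Tendsto (fun x : ℝ => (u - v)⁻¹ * (Complex.log ((x : ℂ) - u) -
      Complex.log ((x : ℂ) - v))) atBot (𝓝 ((u - v)⁻¹ * (-(Real.pi * I) - Real.pi * I))) := by
    have h1 := ((bot_pos u hu).sub (bot_neg v hv)).const_mul (u - v)⁻¹
    have h2 := h1.comp tendsto_neg_atBot_atTop
    refine h2.congr fun x => ?_
    simp only [Function.comp_apply, neg_neg]
    ring
  rw [integral_of_hasDerivAt_of_tendsto hderiv (integ u v hu.ne' hv.ne) hbot htop]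
  field_simp
  ring

end CAU

theorem t_CAU : S_CAU := by
  intro u w hu hw
  have h : (conj w).im < 0 := by
    rw [Complex.conj_im]
    linarith
  exact ⟨CAU.integ u (conj w) hu.ne' h.ne, CAU.value u (conj w) hu h⟩

end Pool.Agent.H720R2.NR
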