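import Pool.Agent.H720R2.NR.Stubs

/-! Task GEO: half plane coordinates. -/

set_option autoImplicit false

open scoped ComplexConjugate
open MeasureTheory

namespace Pool.Agent.H720R2.NR

open F96

theorem GEO_key (c p q ω s b b' α : ℂ) (hbb : b * b' = 1)
    (H1 : c * (ω - p) = ω * (1 - q * ω))
    (H2 : c * (ω * b ^ 2 - p) = ω * b ^ 2 * (1 - q * (ω * b ^ 2)))
    (H3 : α * (1 - q * ω) = 1 - q * (ω * b ^ 2)) :
    c * (ω * (s - b) - p * (s - b')) * (s - α * b') =
      ω * (s - α * b) * ((s - b') - q * ω * (s - b)) := by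
  have hb : b ≠ 0 := by
    rintro rfl
    simp at hbb
  have key : b ^ 2 * (c * (ω * (s - b) - p * (s - b')) * (s - α * b') -
      ω * (s - α * b) * ((s - b') - q * ω * (s - b))) = 0 := by
    linear_combination (s ^ 2 * b ^ 2 - s * b * α) * H1 + (α - s * b) * H2 -
      s * b * (ω - ω * b ^ 2) * H3 +
      ((c * (p * s - α * (ω * (s - b) - p * s)) + ω * (s - α * b)) * b +
        (-(c * α * p)) * (b * b' + 1)) * hbb
  have h2 := (mul_eq_zero.1 key).resolve_left (pow_ne_zero 2 hb)
  exact sub_eq_zero.1 h2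

theorem t_GEO : S_GEO := by
  intro c p ω β α hc hp hω hβ hne hα0 hα1 hfω hfβ hder
  -- nonvanishing denominators
  have hden : ∀ z : ℂ, ‖z‖ ≤ 1 → 1 - conj p * z ≠ 0 := by
    intro z hz h
    have h1 : conj p * z = 1 := (sub_eq_zero.1 h).symm
    have h2 : ‖conj p * z‖ = 1 := by rw [h1, norm_one]
    rw [norm_mul, RCLike.norm_conj] at h2
    have : ‖p‖ * ‖z‖ ≤ ‖p‖ * 1 := mul_le_mul_of_nonneg_left hz (norm_nonneg _)
    linarith
  have hDω := hden ω hω.le
  have hDβ := hden β hβ.le
  have H1 : c * (ω - p) = ω * (1 - conj p * ω) := by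
    rw [← mul_div_assoc, div_eq_iff hDω] at hfω
    exact hfω
  have H2 : c * (β - p) = β * (1 - conj p * β) := by
    rw [← mul_div_assoc, div_eq_iff hDβ] at hfβ
    exact hfβ
  have hne' : ω - β ≠ 0 := sub_ne_zero.2 hne
  have e1 : c = 1 - conj p * (ω + β) := by
    apply mul_right_cancel₀ hne'
    linear_combination H1 - H2
  have e2 : c * p = -(conj p * ω * β) := by
    linear_combination (-1 : ℂ) * H1 + ω * e1
  have e3 : (1 - conj p * ω) * (1 - conj p * β) = c * (1 - p * conj p) := by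
    linear_combination (-1 : ℂ) * e1 + conj p * e2
  have hder2 : HasDerivAt (fun z : ℂ => c * ((z - p) / (1 - conj p * z)))
      (c * (((1 : ℂ) * (1 - conj p * ω) - (ω - p) * (-(conj p * 1))) / (1 - conj p * ω) ^ 2)) ω := by
    have n1 : HasDerivAt (fun z : ℂ => z - p) 1 ω := (hasDerivAt_id ω).sub_const p
    have n2 : HasDerivAt (fun z : ℂ => 1 - conj p * z) (-(conj p * 1)) ω :=
      ((hasDerivAt_id ω).const_mul (conj p)).const_sub 1
    exact (n1.div n2 hDω).const_mul c
  have e4 : (α : ℂ) * (1 - conj p * ω) ^ 2 = c * (1 - p * conj p) := by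
    have h := hder.unique hder2
    rw [h]
    field_simp
    ring
  have H3 : (α : ℂ) * (1 - conj p * ω) = 1 - conj p * β := by
    apply mul_right_cancel₀ hDω
    linear_combination e4 - e3
  -- the point b
  have hωω : ω * conj ω = 1 := by
    rw [Complex.mul_conj, Complex.normSq_eq_norm_sq, hω]
    norm_num
  obtain ⟨b0, hb0⟩ := IsAlgClosed.exists_pow_nat_eq (β * conj ω) (n := 2) (by norm_num)
  have hb0n : ‖b0‖ = 1 := by
    have h1 : ‖b0‖ ^ 2 = 1 := by
      rw [← norm_pow, hb0, norm_mul, RCLike.norm_conj, hβ, hω, one_mul]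
    have h2 := norm_nonneg b0
    nlinarith
  have hb0im : b0.im ≠ 0 := by
    intro h
    have h1 : b0 ^ 2 = 1 := by
      have h2 : b0 = (b0.re : ℂ) := by
        apply Complex.ext
        · simp
        · simp [h]
      have h3 : b0.re ^ 2 = 1 := by
        have h4 : ‖b0‖ ^ 2 = 1 := by rw [hb0n]; norm_num
        rw [← Complex.normSq_eq_norm_sq, Complex.normSq_apply, h] at h4
        nlinarith
      rw [h2, ← Complex.ofReal_pow, h3, Complex.ofReal_one]
    rw [h1] at hb0
    apply hne
    have : β * conj ω * ω = ω := by rw [← hb0, one_mul]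
    rw [mul_assoc, mul_comm (conj ω) ω, hωω, mul_one] at this
    exact this.symm
  obtain ⟨b, hb2, hbn, hbim⟩ : ∃ b : ℂ, b ^ 2 = β * conj ω ∧ ‖b‖ = 1 ∧ 0 < b.im := by
    rcases lt_or_gt_of_ne hb0im with h | h
    · exact ⟨-b0, by rw [neg_sq, hb0], by rw [norm_neg, hb0n], by simpa using h⟩
    · exact ⟨b0, hb0, hb0n, h⟩
  have hβb : β = ω * b ^ 2 := by
    rw [hb2]
    linear_combination (-β) * hωω
  have hbb : b * conj b = 1 := by
    rw [Complex.mul_conj, Complex.normSq_eq_norm_sq, hbn]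
    norm_num
  refine ⟨conj ω, b, by rw [RCLike.norm_conj, hω], hbim, hbn, ?_, ?_⟩
  · have h1 : ω - β = ω * (1 - b ^ 2) := by rw [hβb]; ring
    rw [h1, norm_mul, hω, one_mul, ← Complex.normSq_eq_norm_sq, Complex.normSq_apply]
    have h2 : b.re * b.re + b.im * b.im = 1 := by
      have h3 : ‖b‖ ^ 2 = 1 := by rw [hbn]; norm_num
      rwa [← Complex.normSq_eq_norm_sq, Complex.normSq_apply] at h3
    simp only [Complex.sub_re, Complex.sub_im, Complex.one_re, Complex.one_im, pow_two,
      Complex.mul_re, Complex.mul_im]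
    nlinarith [h2]
  · intro s hs
    have hs1 : s - conj b ≠ 0 := sub_conj_ne hbim hs
    have hαc : (α : ℂ) ≠ 0 := by exact_mod_cast hα0.ne'
    have hαinv : 0 < ((((α⁻¹ : ℝ) : ℂ)) * s).im := by
      rw [Complex.im_ofReal_mul]
      positivity
    have hs2 : ((α⁻¹ : ℝ) : ℂ) * s - conj b ≠ 0 := sub_conj_ne hbim hαinv
    have hs3 : s - (α : ℂ) * conj b ≠ 0 := by
      have e : s - (α : ℂ) * conj b = (α : ℂ) * (((α⁻¹ : ℝ) : ℂ) * s - conj b) := by
        push_cast
        field_simp
      rw [e]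
      exact mul_ne_zero hαc hs2
    have hz1 : ‖zt (conj ω) b s‖ < 1 := norm_zt_lt (by rw [RCLike.norm_conj, hω]) hbim hs
    have hDz := hden _ hz1.le
    have key := GEO_key c p (conj p) ω s b (conj b) α hbb H1 (by rw [← hβb]; exact H2)
      (by rw [← hβb]; exact H3)
    have e5 : (((α⁻¹ : ℝ) : ℂ) * s - b) / (((α⁻¹ : ℝ) : ℂ) * s - conj b) =
        (s - α * b) / (s - α * conj b) := by
      rw [div_eq_div_iff hs2 hs3]
      push_cast
      field_simp
    have ez : zt (conj ω) b s = ω * ((s - b) / (s - conj b)) := by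
      unfold zt
      rw [Complex.conj_conj]
    have ew : zt (conj ω) b (((α⁻¹ : ℝ) : ℂ) * s) = ω * ((s - α * b) / (s - α * conj b)) := by
      unfold zt
      rw [Complex.conj_conj, e5]
    rw [ew, ← mul_div_assoc, div_eq_iff hDz, ez]
    have f1 : c * (ω * ((s - b) / (s - conj b)) - p) =
        c * (ω * (s - b) - p * (s - conj b)) / (s - conj b) := by
      field_simp
    have f2 : ω * ((s - α * b) / (s - α * conj b)) *
        (1 - conj p * (ω * ((s - b) / (s - conj b)))) =
        ω * (s - α * b) * ((s - conj b) - conj p * ω * (s - b)) /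
          ((s - α * conj b) * (s - conj b)) := by
      field_simp
    rw [f1, f2, ← key, div_eq_div_iff hs1 (mul_ne_zero hs3 hs1)]
    ring

end Pool.Agent.H720R2.NR
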