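import Mathlib
set_option autoImplicit false
open Complex MeasureTheory Filter Topology
open scoped ComplexConjugate

namespace KERaux

lemma ne_of_im {z : ℂ} (hz : z.im ≠ 0) (x : ℝ) : (x : ℂ) - z ≠ 0 := by
  intro h
  apply hz
  have := congrArg Complex.im h
  simpa using this

lemma bound {z : ℂ} (hz : z.im ≠ 0) : ∃ C : ℝ, 0 < C ∧ ∀ x : ℝ,
    ‖((x : ℂ) - z)⁻¹‖ ^ 2 ≤ C * (1 + x ^ 2)⁻¹ := by
  refine ⟨2 + (1 + 2 * z.re ^ 2) / z.im ^ 2, by positivity, fun x => ?_⟩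
  have hq : 0 < z.im ^ 2 := by positivity
  have hn : ‖(x : ℂ) - z‖ ^ 2 = (x - z.re) ^ 2 + z.im ^ 2 := by
    rw [← Complex.normSq_eq_norm_sq, Complex.normSq_apply]
    simp
    ring
  have hpos : 0 < (x - z.re) ^ 2 + z.im ^ 2 := by positivity
  have hx : 0 < 1 + x ^ 2 := by positivity
  rw [norm_inv, inv_pow, hn, inv_eq_one_div, ← div_eq_mul_inv, div_le_div_iff₀ hpos hx]
  have h1 : (2 + (1 + 2 * z.re ^ 2) / z.im ^ 2) * ((x - z.re) ^ 2 + z.im ^ 2) =
      2 * (x - z.re) ^ 2 + 2 * z.im ^ 2 + (1 + 2 * z.re ^ 2) +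
        (1 + 2 * z.re ^ 2) / z.im ^ 2 * (x - z.re) ^ 2 := by
    field_simp
    ring
  rw [h1]
  have h2 : 0 ≤ (1 + 2 * z.re ^ 2) / z.im ^ 2 * (x - z.re) ^ 2 := by positivity
  nlinarith [sq_nonneg (x - 2 * z.re)]

lemma cont_inv {z : ℂ} (hz : z.im ≠ 0) : Continuous fun x : ℝ => ((x : ℂ) - z)⁻¹ :=
  (Complex.continuous_ofReal.sub continuous_const).inv₀ fun x => ne_of_im hz x

lemma integ {u a : ℂ} (hu : u.im ≠ 0) (ha : a.im ≠ 0) :
    Integrable fun x : ℝ => ((x : ℂ) - u)⁻¹ * ((x : ℂ) - a)⁻¹ := by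
  obtain ⟨C, hC, h⟩ := bound hu
  obtain ⟨C', hC', h'⟩ := bound ha
  refine Integrable.mono' (integrable_inv_one_add_sq.const_mul (C + C'))
    ((cont_inv hu).mul (cont_inv ha)).aestronglyMeasurable (Eventually.of_forall fun x => ?_)
  rw [norm_mul]
  have h1 := h x
  have h2 := h' x
  nlinarith [sq_nonneg (‖((x : ℂ) - u)⁻¹‖ - ‖((x : ℂ) - a)⁻¹‖), norm_nonneg ((x : ℂ) - u)⁻¹,
    norm_nonneg ((x : ℂ) - a)⁻¹]

/-- the double pole -/
lemma dbl {a : ℂ} (ha : a.im ≠ 0) : ∫ x : ℝ, ((x : ℂ) - a)⁻¹ * ((x : ℂ) - a)⁻¹ = 0 := by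
  have hd : ∀ x : ℝ, HasDerivAt (fun x : ℝ => -((x : ℂ) - a)⁻¹)
      (((x : ℂ) - a)⁻¹ * ((x : ℂ) - a)⁻¹) x := by
    intro x
    have h1 : HasDerivAt (fun x : ℝ => (x : ℂ) - a) 1 x :=
      (Complex.ofRealCLM.hasDerivAt (x := x)).sub_const a
    have h2 : HasDerivAt (fun x : ℝ => -((x : ℂ) - a)⁻¹) (-(-1 / ((x : ℂ) - a) ^ 2)) x :=
      (h1.inv (ne_of_im ha x)).neg
    refine h2.congr_deriv ?_
    rw [neg_div, neg_neg, one_div, pow_two, mul_inv]
  have ht : ∀ l : Filter ℝ, Tendsto (fun x : ℝ => |x|) l atTop →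
      Tendsto (fun x : ℝ => -((x : ℂ) - a)⁻¹) l (𝓝 0) := by
    intro l hl
    rw [← neg_zero]
    refine Tendsto.neg ?_
    refine Filter.tendsto_inv₀_cobounded.comp ?_
    rw [← tendsto_norm_atTop_iff_cobounded]
    refine tendsto_atTop_mono (f := fun x : ℝ => |x| - ‖a‖) (fun x => ?_)
      (tendsto_atTop_add_const_right _ _ hl)
    have := norm_sub_norm_le (x : ℂ) a
    rwa [Complex.norm_real, Real.norm_eq_abs] at this
  have := integral_of_hasDerivAt_of_tendsto (f := fun x : ℝ => -((x : ℂ) - a)⁻¹) hd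
    (integ ha ha) (ht _ tendsto_abs_atBot_atTop) (ht _ tendsto_abs_atTop_atTop)
  rw [this, sub_zero]

/-- three poles -/
lemma three (hCAU : ∀ u a : ℂ, 0 < u.im → a.im < 0 →
      ∫ x : ℝ, ((x : ℂ) - u)⁻¹ * ((x : ℂ) - a)⁻¹ = 2 * Real.pi * I / (u - a))
    {u a c : ℂ} (hu : 0 < u.im) (ha : a.im < 0) (hc : c.im < 0) :
    Integrable (fun x : ℝ => ((x : ℂ) - u)⁻¹ * ((x : ℂ) - a)⁻¹ * ((x : ℂ) - c)⁻¹) ∧
    ∫ x : ℝ, ((x : ℂ) - u)⁻¹ * ((x : ℂ) - a)⁻¹ * ((x : ℂ) - c)⁻¹ =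
      2 * Real.pi * I / ((u - a) * (u - c)) := by
  have hua : u - a ≠ 0 := by
    intro h
    have := congrArg Complex.im h
    simp at this
    linarith
  have huc : u - c ≠ 0 := by
    intro h
    have := congrArg Complex.im h
    simp at this
    linarith
  by_cases hac : a = c
  · subst hac
    have e : (fun x : ℝ => ((x : ℂ) - u)⁻¹ * ((x : ℂ) - a)⁻¹ * ((x : ℂ) - a)⁻¹) =
        fun x : ℝ => (u - a)⁻¹ * (((x : ℂ) - u)⁻¹ * ((x : ℂ) - a)⁻¹ -
          ((x : ℂ) - a)⁻¹ * ((x : ℂ) - a)⁻¹) := by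
      funext x
      have h1 := ne_of_im hu.ne' x
      have h2 := ne_of_im ha.ne x
      field_simp
      ring
    have i1 := integ hu.ne' ha.ne
    have i2 := integ ha.ne ha.ne
    rw [e]
    refine ⟨(i1.sub i2).const_mul _, ?_⟩
    rw [integral_const_mul, integral_sub i1 i2, hCAU u a hu ha, dbl ha.ne, sub_zero]
    field_simp
  · have hac' : a - c ≠ 0 := sub_ne_zero.2 hac
    have e : (fun x : ℝ => ((x : ℂ) - u)⁻¹ * ((x : ℂ) - a)⁻¹ * ((x : ℂ) - c)⁻¹) =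
        fun x : ℝ => (a - c)⁻¹ * (((x : ℂ) - u)⁻¹ * ((x : ℂ) - a)⁻¹ -
          ((x : ℂ) - u)⁻¹ * ((x : ℂ) - c)⁻¹) := by
      funext x
      have h1 := ne_of_im hu.ne' x
      have h2 := ne_of_im ha.ne x
      have h3 := ne_of_im hc.ne x
      field_simp
      ring
    have i1 := integ hu.ne' ha.ne
    have i2 := integ hu.ne' hc.ne
    rw [e]
    refine ⟨(i1.sub i2).const_mul _, ?_⟩
    rw [integral_const_mul, integral_sub i1 i2, hCAU u a hu ha, hCAU u c hu hc]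
    field_simp
    ring



/-- the kernel in half-plane coordinates -/
noncomputable def KK (b u x : ℂ) : ℂ :=
  (conj u - b) * (x - conj b) / ((b - conj b) * (conj u - x))

lemma ker (hCAU : ∀ u a : ℂ, 0 < u.im → a.im < 0 →
      ∫ x : ℝ, ((x : ℂ) - u)⁻¹ * ((x : ℂ) - a)⁻¹ = 2 * Real.pi * I / (u - a))
    {b s u : ℂ} (hb : 0 < b.im) (hs : 0 < s.im) (hu : 0 < u.im) {l : ℝ} (hl : 0 < l) :
    Integrable (fun x : ℝ => conj (KK b u x) * KK b s ((l : ℂ) * x) / (‖(x : ℂ) - b‖ ^ 2 : ℝ)) ∧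
    ∫ x : ℝ, conj (KK b u x) * KK b s ((l : ℂ) * x) / (‖(x : ℂ) - b‖ ^ 2 : ℝ) =
      (Real.pi / b.im : ℝ) * KK b s ((l : ℂ) * u) := by
  have hl0 : (l : ℂ) ≠ 0 := by exact_mod_cast hl.ne'
  set a : ℂ := conj s / l with ha
  have hla : (l : ℂ) * a = conj s := by rw [ha]; field_simp
  have haim : a.im < 0 := by
    have h1 : ((l : ℂ) * a).im = l * a.im := by simp
    rw [hla] at h1
    simp only [Complex.conj_im] at h1
    by_contra h
    rw [not_lt] at h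
    have := mul_nonneg hl.le h
    linarith
  have hcim : (conj b).im < 0 := by simpa using hb
  have hbb : b - conj b = 2 * b.im * I := by
    apply Complex.ext
    · simp
    · simp
      ring
  have hbim : (b.im : ℂ) ≠ 0 := by exact_mod_cast hb.ne'
  have hbb0 : b - conj b ≠ 0 := by
    rw [hbb]
    exact mul_ne_zero (mul_ne_zero two_ne_zero hbim) I_ne_zero
  have hub : u - conj b ≠ 0 := by
    intro h
    have := congrArg Complex.im h
    simp at this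
    linarith
  have hua : u - a ≠ 0 := by
    intro h
    have := congrArg Complex.im h
    simp at this
    linarith
  obtain ⟨i3, h3⟩ := three hCAU hu haim hcim
  have i2 := integ hu.ne' haim.ne
  have h2 := hCAU u a hu haim
  have e : (fun x : ℝ => conj (KK b u x) * KK b s ((l : ℂ) * x) / (‖(x : ℂ) - b‖ ^ 2 : ℝ)) =
      fun x : ℝ => (-(u - conj b) * (conj s - b) / (b - conj b) ^ 2) *
        (((x : ℂ) - u)⁻¹ * ((x : ℂ) - a)⁻¹ + ((l - 1) * conj b / l) *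
          (((x : ℂ) - u)⁻¹ * ((x : ℂ) - a)⁻¹ * ((x : ℂ) - conj b)⁻¹)) := by
    funext x
    have n1 := ne_of_im hu.ne' x
    have n2 := ne_of_im haim.ne x
    have n3 := ne_of_im hcim.ne x
    have n4 := ne_of_im hb.ne' x
    have n5 : conj s - (l : ℂ) * x ≠ 0 := by
      rw [← hla, ← mul_sub]
      exact mul_ne_zero hl0 (by rw [← neg_sub]; exact neg_ne_zero.2 n2)
    have n6 : u - (x : ℂ) ≠ 0 := by rw [← neg_sub]; exact neg_ne_zero.2 n1
    have n7 : conj b - b ≠ 0 := by rw [← neg_sub]; exact neg_ne_zero.2 hbb0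
    have hnorm : ((‖(x : ℂ) - b‖ ^ 2 : ℝ) : ℂ) = ((x : ℂ) - b) * ((x : ℂ) - conj b) := by
      rw [← Complex.normSq_eq_norm_sq, ← Complex.mul_conj, map_sub, Complex.conj_ofReal]
    have hK : conj (KK b u x) = (u - conj b) * ((x : ℂ) - b) / ((conj b - b) * (u - x)) := by
      unfold KK
      simp only [map_div₀, map_mul, map_sub, Complex.conj_conj, Complex.conj_ofReal]
    have hs' : conj s = l * a := hla.symm
    rw [hK, hnorm]
    unfold KK
    rw [hs'] at n5 ⊢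
    have n8 : a - (x : ℂ) ≠ 0 := by rw [← neg_sub]; exact neg_ne_zero.2 n2
    field_simp
    ring
  rw [e]
  refine ⟨(i2.add (i3.const_mul _)).const_mul _, ?_⟩
  rw [integral_const_mul, integral_add i2 (i3.const_mul _), integral_const_mul, h2, h3]
  unfold KK
  have n9 : conj s - (l : ℂ) * u ≠ 0 := by
    rw [← hla, ← mul_sub]
    exact mul_ne_zero hl0 (by rw [← neg_sub]; exact neg_ne_zero.2 hua)
  have hpi : ((Real.pi / b.im : ℝ) : ℂ) = 2 * Real.pi * I / (b - conj b) := by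
    rw [hbb]
    push_cast
    field_simp
  have n10 : a - u ≠ 0 := by rw [← neg_sub]; exact neg_ne_zero.2 hua
  rw [hpi]
  rw [← hla] at n9 ⊢
  field_simp
  ring

end KERaux
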