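import Pool.Agent.H720R2.NR.Stubs

set_option autoImplicit false

open scoped ComplexConjugate
open MeasureTheory

namespace Pool.Agent.H720R2.NR

theorem sch_P_lt (l P : ℝ) (hl : 1 < l) (hP : P ^ 2 * (3 * l + 1) ^ 2 ≤ 4 * ((3 * l - 1) * (l - 1))) :
    P ^ 2 < 4 := by
  by_contra h
  push Not at h
  have h1 : 4 * (3 * l + 1) ^ 2 ≤ P ^ 2 * (3 * l + 1) ^ 2 :=
    mul_le_mul_of_nonneg_right h (by positivity)
  nlinarith

theorem sch_Rq_pos (P x : ℝ) (hP : P ^ 2 < 4) : 0 < Rq P x := by
  unfold Rq
  nlinarith [sq_nonneg (2 * x - P)]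

theorem t_SCH : S_SCH := by
  intro l P x hl hP hc
  have hP4 := sch_P_lt l P hl hc
  have hl0 : 0 < l := by linarith
  have hq := sch_Rq_pos P x hP4
  have hq' := sch_Rq_pos P (x / l) hP4
  have hPl : 0 ≤ P / l := by positivity
  by_cases h : (P + P / l) * x ≤ 1
  · have ha : aw l P x = 1 := by unfold aw; rw [if_pos h]
    have h2 : (P + P / l) * (x / l) ≤ 1 := by
      rcases le_total x 0 with hx | hx
      · have : (P + P / l) * (x / l) ≤ 0 :=
          mul_nonpos_of_nonneg_of_nonpos (by positivity) (div_nonpos_of_nonpos_of_nonneg hx hl0.le)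
        linarith
      · have h3 : x / l ≤ x := by
          rw [div_le_iff₀ hl0]; nlinarith
        have : (P + P / l) * (x / l) ≤ (P + P / l) * x :=
          mul_le_mul_of_nonneg_left h3 (by positivity)
        linarith
    have ha' : aw l P (x / l) = 1 := by unfold aw; rw [if_pos h2]
    rw [ha, ha']
    refine ⟨one_pos, le_rfl, ?_⟩
    have h3 : Rq P x / (l ^ 2 * Rq P (x / l)) ≤ 1 := by
      rw [div_le_one (by positivity)]
      unfold Rq
      have h4 : l ^ 2 * ((x / l) ^ 2 - P * (x / l) + 1) = x ^ 2 - P * l * x + l ^ 2 := by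
        field_simp
      rw [h4]
      have h5 : P * x ≤ 1 := by
        rcases le_total x 0 with hx | hx
        · have := mul_nonpos_of_nonneg_of_nonpos hP hx
          linarith
        · have : 0 ≤ P / l * x := by positivity
          nlinarith
      nlinarith [mul_le_mul_of_nonneg_left h5 (by linarith : (0:ℝ) ≤ l - 1)]
    linarith
  · push Not at h
    have hPpos : 0 < P := by
      rcases hP.lt_or_eq with h1 | h1
      · exact h1
      · rw [← h1] at h; simp at h; linarith
    have hx : 0 < x := by
      by_contra h1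
      push Not at h1
      have : (P + P / l) * x ≤ 0 := mul_nonpos_of_nonneg_of_nonpos (by positivity) h1
      linarith
    set g : ℝ := P / l with hg
    have hgl : l * g = P := by rw [hg]; field_simp
    have hg0 : 0 < g := by rw [hg]; positivity
    have ha : aw l P x = Rq P x / (x * (x + g)) := by
      unfold aw; rw [if_neg (by push Not; exact h)]
    have hden : 0 < x * (x + g) := by positivity
    have hapos : 0 < aw l P x := by rw [ha]; positivity
    have hle1 : aw l P x ≤ 1 := by
      rw [ha, div_le_one hden]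
      unfold Rq
      nlinarith
    refine ⟨hapos, hle1, ?_⟩
    -- bound of the second weight
    have h2 : aw l P (x / l) ≤ Rq P (x / l) / ((x / l) * (x / l + g)) := by
      unfold aw
      by_cases h3 : (P + P / l) * (x / l) ≤ 1
      · rw [if_pos h3]
        rw [le_div_iff₀ (by positivity)]
        unfold Rq
        rw [← hg] at h3
        nlinarith
      · rw [if_neg h3]
    have h3 : aw l P (x / l) * (Rq P x / (l ^ 2 * Rq P (x / l))) ≤ Rq P x / (x * (x + P)) := by
      calc aw l P (x / l) * (Rq P x / (l ^ 2 * Rq P (x / l)))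
          ≤ Rq P (x / l) / ((x / l) * (x / l + g)) * (Rq P x / (l ^ 2 * Rq P (x / l))) :=
            mul_le_mul_of_nonneg_right h2 (by positivity)
        _ = Rq P x / (x * (x + l * g)) := by field_simp
        _ = Rq P x / (x * (x + P)) := by rw [hgl]
    have h4 : 1 / aw l P x = x * (x + g) / Rq P x := by rw [ha, one_div_div]
    rw [h4]
    refine (add_le_add_right h3 _).trans ?_
    have hd2 : 0 < x * (x + P) := by positivity
    rw [div_add_div _ _ hq.ne' hd2.ne', div_le_iff₀ (by positivity)]
    -- polynomial inequality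
    have hkey : 0 ≤ (l - 1) * g * x ^ 3 - (P * g + 3 * P ^ 2) * x ^ 2 + 4 * P * x - 1 := by
      have h5 : 1 ≤ (P + g) * x := h.le
      have h6 : 0 ≤ (l - 1) * x ^ 2 - P * (3 * l + 1) * x + (3 * l - 1) := by
        have h7 : 0 < l - 1 := by linarith
        have h8 : 0 ≤ 4 * (l - 1) * ((l - 1) * x ^ 2 - P * (3 * l + 1) * x + (3 * l - 1)) := by
          nlinarith [sq_nonneg (2 * (l - 1) * x - P * (3 * l + 1))]
        exact nonneg_of_mul_nonneg_right h8 (by positivity)
      have h9 : 0 ≤ g * x * ((l - 1) * x ^ 2 - P * (3 * l + 1) * x + (3 * l - 1)) :=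
        mul_nonneg (by positivity) h6
      have h10 : g * x * ((l - 1) * x ^ 2 - P * (3 * l + 1) * x + (3 * l - 1)) =
          (l - 1) * g * x ^ 3 - P * (3 * (l * g) + g) * x ^ 2 + (3 * (l * g) - g) * x := by ring
      rw [hgl] at h10
      nlinarith
    have h11 : 2 * (Rq P x * (x * (x + P))) - (x * (x + g) * (x * (x + P)) + Rq P x * Rq P x) =
        (P - g) * x ^ 3 - (P * g + 3 * P ^ 2) * x ^ 2 + 4 * P * x - 1 := by
      unfold Rq; ring
    have h12 : (l - 1) * g = P - g := by linarith [hgl]
    rw [h12] at hkey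
    linarith

end Pool.Agent.H720R2.NR
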