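import Pool.Agent.H720R2.NR.TINT
import Pool.Agent.H720R2.NR.TKER
import Pool.Agent.H720R2.NR.TCAU

set_option autoImplicit false

open scoped ComplexConjugate
open MeasureTheory

namespace Pool.Agent.H720R2.NR

open F96

theorem t_KER' : S_KER := by
  intro b s u l hb hs hu hl
  have hC : ∀ u a : ℂ, 0 < u.im → a.im < 0 →
      ∫ x : ℝ, ((x : ℂ) - u)⁻¹ * ((x : ℂ) - a)⁻¹ = 2 * Real.pi * Complex.I / (u - a) := by
    intro u a h1 h2
    rw [← CAU.value u a h1 h2]
    congr 1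
    funext x
    rw [one_div, mul_inv]
  have h := KERaux.ker hC hb hs hu hl
  have e : (fun x : ℝ => K b s ((l * x : ℝ) : ℂ) * conj (K b u x) / ((‖(x : ℂ) - b‖ ^ 2 : ℝ) : ℂ)) =
      fun x : ℝ => conj (KERaux.KK b u x) * KERaux.KK b s ((l : ℂ) * x) /
        ((‖(x : ℂ) - b‖ ^ 2 : ℝ) : ℂ) := by
    funext x
    have e1 : ((l * x : ℝ) : ℂ) = (l : ℂ) * x := by push_cast; rfl
    rw [e1]
    simp only [K, KERaux.KK]
    rw [mul_comm]
  rw [e]
  exact h

theorem K_cont (b s : ℂ) (hb : 0 < b.im) (hs : 0 < s.im) : Continuous fun x : ℝ => K b s x := by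
  unfold K
  refine Continuous.div (by fun_prop) (by fun_prop) fun x => ?_
  refine mul_ne_zero (b_sub_conj_ne hb) ?_
  intro h
  have := congrArg Complex.im h
  simp at this
  linarith

theorem K_bdd (b s : ℂ) (hb : 0 < b.im) (hs : 0 < s.im) : ∃ M : ℝ, ∀ x : ℝ, ‖K b s x‖ ≤ M := by
  refine ⟨‖(conj s - b) / (b - conj b)‖ * (1 + ‖conj s - conj b‖ / s.im), fun x => ?_⟩
  have h1 : conj s - (x : ℂ) ≠ 0 := by
    intro h
    have := congrArg Complex.im h
    simp at this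
    linarith
  have h2 := b_sub_conj_ne hb
  have h3 : K b s x = (conj s - b) / (b - conj b) * (-1 + (conj s - conj b) / (conj s - x)) := by
    unfold K
    field_simp
    ring
  rw [h3, norm_mul]
  apply mul_le_mul_of_nonneg_left _ (norm_nonneg _)
  have h4 : s.im ≤ ‖conj s - (x : ℂ)‖ := by
    have := Complex.abs_im_le_norm (conj s - (x : ℂ))
    simp only [Complex.sub_im, Complex.conj_im, Complex.ofReal_im, sub_zero, abs_neg] at this
    exact (le_abs_self _).trans this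
  calc ‖-1 + (conj s - conj b) / (conj s - (x : ℂ))‖
      ≤ ‖(-1 : ℂ)‖ + ‖(conj s - conj b) / (conj s - (x : ℂ))‖ := norm_add_le _ _
    _ ≤ 1 + ‖conj s - conj b‖ / s.im := by
        rw [norm_neg, norm_one, norm_div]
        exact add_le_add_right (div_le_div_of_nonneg_left (norm_nonneg _) hs h4) _

theorem Rq_eq (b : ℂ) (hb1 : ‖b‖ = 1) (x : ℝ) : Rq (2 * b.re) x = ‖(x : ℂ) - b‖ ^ 2 := by
  have h1 : b.re * b.re + b.im * b.im = 1 := by
    rw [← Complex.normSq_apply, Complex.normSq_eq_norm_sq, hb1]; norm_num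
  rw [← Complex.normSq_eq_norm_sq, Complex.normSq_apply]
  simp only [Complex.sub_re, Complex.ofReal_re, Complex.sub_im, Complex.ofReal_im]
  unfold Rq
  nlinarith

theorem form (hKER : S_KER) {η b : ℂ} (hη : ‖η‖ = 1) (hb : 0 < b.im) (hb1 : ‖b‖ = 1) (l : ℝ)
    (hl : 0 < l) (ψ : ℂ → ℂ) (hψ : ∀ s : ℂ, 0 < s.im → ψ (zt η b s) = zt η b (l * s))
    (T : H2 →L[ℂ] H2) (hT : ∀ f : H2, ∀ z : ℂ, ‖z‖ < 1 → ev (T f) z = ev f (ψ z)) (n : ℕ)
    (c s : Fin n → ℂ) (hs : ∀ i, 0 < (s i).im) :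
    ((Real.pi / b.im : ℝ) : ℂ) * inner ℂ (∑ i, c i • kz (zt η b (s i)))
      (T (∑ i, c i • kz (zt η b (s i)))) =
    ∫ x : ℝ, (∑ i, c i * K b (s i) ((l * x : ℝ) : ℂ)) * conj (∑ i, c i * K b (s i) x) /
      ((Rq (2 * b.re) x : ℝ) : ℂ) := by
  have hin : ∀ i j, (inner ℂ (kz (zt η b (s j))) (T (kz (zt η b (s i)))) : ℂ) =
      K b (s i) (l * s j) := by
    intro i j
    have hlj : 0 < ((l : ℂ) * s j).im := by
      rw [Complex.im_ofReal_mul]
      exact mul_pos hl (hs j)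
    rw [inner_kz (norm_zt_lt hη hb (hs j)), hT _ _ (norm_zt_lt hη hb (hs j)), hψ _ (hs j),
      ev_kz_zt hη hb (hs i) hlj]
    rfl
  have hint : ∀ x : ℝ, (∑ i, c i * K b (s i) ((l * x : ℝ) : ℂ)) *
      conj (∑ i, c i * K b (s i) x) / ((Rq (2 * b.re) x : ℝ) : ℂ) =
      ∑ i, ∑ j, (c i * conj (c j)) * (K b (s i) ((l * x : ℝ) : ℂ) * conj (K b (s j) x) /
        ((‖(x : ℂ) - b‖ ^ 2 : ℝ) : ℂ)) := by
    intro x
    rw [Rq_eq b hb1, map_sum, Finset.sum_mul_sum, Finset.sum_div]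
    refine Finset.sum_congr rfl fun i _ => ?_
    rw [Finset.sum_div]
    refine Finset.sum_congr rfl fun j _ => ?_
    rw [map_mul]
    ring
  have hI := fun i j => hKER b (s i) (s j) l hb (hs i) (hs j) hl
  simp_rw [hint]
  rw [integral_finset_sum _ fun i _ => integrable_finset_sum _ fun j _ =>
    ((hI i j).1.const_mul (c i * conj (c j)))]
  rw [map_sum, sum_inner, Finset.mul_sum]
  simp_rw [inner_sum]
  simp_rw [Finset.mul_sum]
  rw [Finset.sum_comm]
  refine Finset.sum_congr rfl fun i _ => ?_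
  rw [integral_finset_sum _ fun j _ => ((hI i j).1.const_mul (c i * conj (c j)))]
  refine Finset.sum_congr rfl fun j _ => ?_
  rw [integral_const_mul, (hI i j).2, map_smul, inner_smul_left, inner_smul_right, hin]
  ring

theorem t_UB (hKER : S_KER) (hINT : S_INT) : S_UB := by
  intro η b l φ C hη hb hb1 hl hc hφ hC
  have hl0 : 0 < l := by linarith
  have hpi : 0 < Real.pi / b.im := div_pos Real.pi_pos hb
  -- the bound on the span of the kernels
  have hspan : ∀ f ∈ Submodule.span ℂ (kz '' {z | ‖z‖ < 1}),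
      ‖(inner ℂ f (C f) : ℂ)‖ ≤ Real.sqrt l * ‖f‖ ^ 2 := by
    intro f hf
    rw [Submodule.mem_span_set'] at hf
    obtain ⟨n, c, g, hg⟩ := hf
    have h1 : ∀ i, ∃ s : ℂ, 0 < s.im ∧ kz (zt η b s) = g i := by
      intro i
      obtain ⟨z, hz, hzg⟩ := (g i).2
      obtain ⟨s, hs, hsz⟩ := exists_zt (b := b) hη hb hz
      exact ⟨s, hs, by rw [hsz]; exact hzg⟩
    choose s hs hsg using h1
    have hf : f = ∑ i, c i • kz (zt η b (s i)) := by
      rw [← hg]
      exact Finset.sum_congr rfl fun i _ => by rw [hsg]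
    have h2 := form hKER hη hb hb1 l hl0 φ hφ C hC n c s hs
    have h3 := form hKER hη hb hb1 1 one_pos (fun z => z) (fun s _ => by simp)
      (ContinuousLinearMap.id ℂ H2) (fun f z _ => rfl) n c s hs
    rw [← hf] at h2 h3
    set F : ℝ → ℂ := fun x => ∑ i, c i * K b (s i) x with hF
    have hFc : Continuous F := by
      rw [hF]
      exact continuous_finset_sum _ fun i _ => continuous_const.mul (K_cont b (s i) hb (hs i))
    choose M hM using fun i => K_bdd b (s i) hb (hs i)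
    have hFM : ∀ x, ‖F x‖ ≤ ∑ i, ‖c i‖ * M i := by
      intro x
      refine (norm_sum_le _ _).trans (Finset.sum_le_sum fun i _ => ?_)
      rw [norm_mul]
      exact mul_le_mul_of_nonneg_left (hM i x) (norm_nonneg _)
    have h4 := hINT F l (2 * b.re) _ hFc hFM hl (by
      have : (2 * b.re) ^ 2 = 4 * b.re ^ 2 := by ring
      rw [this]; exact hc)
    have h5 : ((Real.pi / b.im : ℝ) : ℂ) * inner ℂ f (C f) =
        ∫ x : ℝ, F (l * x) * conj (F x) / ((Rq (2 * b.re) x : ℝ) : ℂ) := h2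
    have h6 : (Real.pi / b.im) * ‖f‖ ^ 2 = ∫ x : ℝ, ‖F x‖ ^ 2 / Rq (2 * b.re) x := by
      have h7 : ((Real.pi / b.im : ℝ) : ℂ) * inner ℂ f f =
          ∫ x : ℝ, ((‖F x‖ ^ 2 / Rq (2 * b.re) x : ℝ) : ℂ) := by
        refine Eq.trans h3 ?_
        congr 1
        funext x
        rw [one_mul, Complex.mul_conj, Complex.normSq_eq_norm_sq]
        push_cast
        rfl
      rw [integral_complex_ofReal, inner_self_eq_norm_sq_to_K] at h7
      have h8 : ((Real.pi / b.im * ‖f‖ ^ 2 : ℝ) : ℂ) =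
          ((∫ x : ℝ, ‖F x‖ ^ 2 / Rq (2 * b.re) x : ℝ) : ℂ) := by
        rw [← h7]
        push_cast
        rfl
      exact_mod_cast h8
    have h9 : (Real.pi / b.im) * ‖(inner ℂ f (C f) : ℂ)‖ =
        ‖∫ x : ℝ, F (l * x) * conj (F x) / ((Rq (2 * b.re) x : ℝ) : ℂ)‖ := by
      rw [← h5, norm_mul, Complex.norm_real, Real.norm_eq_abs, abs_of_pos hpi]
    rw [← h9, ← h6] at h4
    have h10 : (Real.pi / b.im) * ‖(inner ℂ f (C f) : ℂ)‖ ≤
        (Real.pi / b.im) * (Real.sqrt l * ‖f‖ ^ 2) := by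
      calc _ ≤ Real.sqrt l * (Real.pi / b.im * ‖f‖ ^ 2) := h4
        _ = _ := by ring
    exact le_of_mul_le_mul_left h10 hpi
  -- density
  have hclosed : IsClosed {x : H2 | ‖(inner ℂ x (C x) : ℂ)‖ ≤ Real.sqrt l * ‖x‖ ^ 2} := by
    refine isClosed_le ?_ (by fun_prop)
    exact (Continuous.inner continuous_id C.continuous).norm
  intro x
  have hx : x ∈ closure ((Submodule.span ℂ (kz '' {z | ‖z‖ < 1}) : Submodule ℂ H2) : Set H2) := by
    rw [Metric.mem_closure_iff]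
    intro ε hε
    obtain ⟨g', hg', hd⟩ := kz_span_dense x ε hε
    exact ⟨g', hg', by rw [dist_eq_norm]; exact hd⟩
  exact (closure_minimal (fun f hf => hspan f hf) hclosed) hx

end Pool.Agent.H720R2.NR
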