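import Pool.Agent.H720R2.NR.INT2
import Pool.Agent.H720R2.NR.TUB

set_option autoImplicit false

open scoped ComplexConjugate
open MeasureTheory

namespace Pool.Agent.H720R2.NR

open F96

theorem ub2 (η b : ℂ) (l k : ℝ) (φ : ℂ → ℂ) (C : H2 →L[ℂ] H2) (hη : ‖η‖ = 1) (hb : 0 < b.im)
    (hb1 : ‖b‖ = 1) (hl : 1 < l) (hc : Cd l (2 * b.re) k)
    (hφ : ∀ s : ℂ, 0 < s.im → φ (zt η b s) = zt η b (l * s))
    (hC : ∀ f : H2, ∀ z : ℂ, ‖z‖ < 1 → ev (C f) z = ev f (φ z)) :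
    ∀ x : H2, ‖(inner ℂ x (C x) : ℂ)‖ ≤ Real.sqrt l * ‖x‖ ^ 2 := by
  have hKER := t_KER'
  have hl0 : 0 < l := by linarith
  have hpi : 0 < Real.pi / b.im := div_pos Real.pi_pos hb
  -- the bound on the span of the kernels
  have hspan : ∀ f ∈ Submodule.span ℂ (kz '' {z | ‖z‖ < 1}),
      ‖(inner ℂ f (C f) : ℂ)‖ ≤ Real.sqrt l * ‖f‖ ^ 2 := by
    intro f hf
    rw [Submodule.mem_span_set'] at hf
    obtain ⟨n, c, g, hg⟩ := hf
    have h1 : ∀ i, ∃ s : ℂ, 0 < s.im ∧ kz (zt η b s) = g i := by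
      intro i
      obtain ⟨z, hz, hzg⟩ := (g i).2
      obtain ⟨s, hs, hsz⟩ := exists_zt (b := b) hη hb hz
      exact ⟨s, hs, by rw [hsz]; exact hzg⟩
    choose s hs hsg using h1
    have hf : f = ∑ i, c i • kz (zt η b (s i)) := by
      rw [← hg]
      exact Finset.sum_congr rfl fun i _ => by rw [hsg]
    have h2 := form hKER hη hb hb1 l hl0 φ hφ C hC n c s hs
    have h3 := form hKER hη hb hb1 1 one_pos (fun z => z) (fun s _ => by simp)
      (ContinuousLinearMap.id ℂ H2) (fun f z _ => rfl) n c s hs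
    rw [← hf] at h2 h3
    set F : ℝ → ℂ := fun x => ∑ i, c i * K b (s i) x with hF
    have hFc : Continuous F := by
      rw [hF]
      exact continuous_finset_sum _ fun i _ => continuous_const.mul (K_cont b (s i) hb (hs i))
    choose M hM using fun i => K_bdd b (s i) hb (hs i)
    have hFM : ∀ x, ‖F x‖ ≤ ∑ i, ‖c i‖ * M i := by
      intro x
      refine (norm_sum_le _ _).trans (Finset.sum_le_sum fun i _ => ?_)
      rw [norm_mul]
      exact mul_le_mul_of_nonneg_left (hM i x) (norm_nonneg _)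
    have h4 := int2 F l (2 * b.re) k _ hFc hFM hl hc
    have h5 : ((Real.pi / b.im : ℝ) : ℂ) * inner ℂ f (C f) =
        ∫ x : ℝ, F (l * x) * conj (F x) / ((Rq (2 * b.re) x : ℝ) : ℂ) := h2
    have h6 : (Real.pi / b.im) * ‖f‖ ^ 2 = ∫ x : ℝ, ‖F x‖ ^ 2 / Rq (2 * b.re) x := by
      have h7 : ((Real.pi / b.im : ℝ) : ℂ) * inner ℂ f f =
          ∫ x : ℝ, ((‖F x‖ ^ 2 / Rq (2 * b.re) x : ℝ) : ℂ) := by
        refine Eq.trans h3 ?_
        congr 1
        funext x
        rw [one_mul, Complex.mul_conj, Complex.normSq_eq_norm_sq]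
        push_cast
        rfl
      rw [integral_complex_ofReal, inner_self_eq_norm_sq_to_K] at h7
      have h8 : ((Real.pi / b.im * ‖f‖ ^ 2 : ℝ) : ℂ) =
          ((∫ x : ℝ, ‖F x‖ ^ 2 / Rq (2 * b.re) x : ℝ) : ℂ) := by
        rw [← h7]
        push_cast
        rfl
      exact_mod_cast h8
    have h9 : (Real.pi / b.im) * ‖(inner ℂ f (C f) : ℂ)‖ =
        ‖∫ x : ℝ, F (l * x) * conj (F x) / ((Rq (2 * b.re) x : ℝ) : ℂ)‖ := by
      rw [← h5, norm_mul, Complex.norm_real, Real.norm_eq_abs, abs_of_pos hpi]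
    rw [← h9, ← h6] at h4
    have h10 : (Real.pi / b.im) * ‖(inner ℂ f (C f) : ℂ)‖ ≤
        (Real.pi / b.im) * (Real.sqrt l * ‖f‖ ^ 2) := by
      calc _ ≤ Real.sqrt l * (Real.pi / b.im * ‖f‖ ^ 2) := h4
        _ = _ := by ring
    exact le_of_mul_le_mul_left h10 hpi
  -- density
  have hclosed : IsClosed {x : H2 | ‖(inner ℂ x (C x) : ℂ)‖ ≤ Real.sqrt l * ‖x‖ ^ 2} := by
    refine isClosed_le ?_ (by fun_prop)
    exact (Continuous.inner continuous_id C.continuous).norm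
  intro x
  have hx : x ∈ closure ((Submodule.span ℂ (kz '' {z | ‖z‖ < 1}) : Submodule ℂ H2) : Set H2) := by
    rw [Metric.mem_closure_iff]
    intro ε hε
    obtain ⟨g', hg', hd⟩ := kz_span_dense x ε hε
    exact ⟨g', hg', by rw [dist_eq_norm]; exact hd⟩
  exact (closure_minimal (fun f hf => hspan f hf) hclosed) hx

end Pool.Agent.H720R2.NR
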